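import Mathlib
import Pool.Agent.V11221.CovDim
import Pool.Agent.V11221.SnLower

/-!
# Finitely many zero-dimensional extensions: the structural number of a metrizable space of
infinite dimension is infinite
-/

namespace Pool.Agent.Results.MP_e04a0d_gt.NotFinite

open Set Filter Topology TopologicalSpace Cardinal
open Pool.Agent.V11221.CovDim Pool.Agent.V11221.SnLower

universe u

/-- `μ` is an extension of `τ`: each `τ`-open set is `μ`-open. -/
def IsExtension {X : Type u} (τ μ : TopologicalSpace X) : Prop :=
  ∀ U : Set X, IsOpen[τ] U → IsOpen[μ] U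

/-- `(X, μ)` belongs to `M_dim`: it is metrizable and its covering dimension is `0`, i.e. it is
nonempty and its covering dimension is at most `0`. -/
def MDim {X : Type u} (μ : TopologicalSpace X) : Prop :=
  @MetrizableSpace X μ ∧ Nonempty X ∧ @CovDimLE X μ 0

/-- `τ` is the intersection of a family of `κ` many extensions which belong to `M_dim`. The
structural number `Sn^{M_dim}(X, τ)` is the least `κ` with this property. -/
def HasFamily {X : Type u} (τ : TopologicalSpace X) (κ : Cardinal.{0}) : Prop :=
  ∃ (I : Type) (μ : I → TopologicalSpace X), #I = κ ∧ (∀ i, IsExtension τ (μ i) ∧ MDim (μ i)) ∧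
    ∀ U : Set X, IsOpen[τ] U ↔ ∀ i, IsOpen[μ i] U

theorem bound (X : Type u) [τ : TopologicalSpace X] [MetrizableSpace X] (k : ℕ)
    (h : HasFamily τ (k : Cardinal.{0})) : CovDimLE X (2 ^ k - 2) := by
  classical
  let _ := metrizableSpaceMetric X
  obtain ⟨I, μ, hI, hμ, hU⟩ := h
  have hlt : #I < ℵ₀ := hI ▸ natCast_lt_aleph0
  have hfin : Finite I := lt_aleph0_iff_finite.1 hlt
  have hft : Fintype I := Fintype.ofFinite I
  have hcard : (Finset.univ : Finset I).card = k := by
    have h1 : #I = Fintype.card I := mk_fintype I
    rw [h1] at hI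
    exact_mod_cast hI
  obtain hk | hk := Nat.eq_zero_or_pos k
  · subst hk
    have hempty : IsEmpty I := by
      rw [Finset.card_eq_zero, Finset.univ_eq_empty_iff] at hcard
      exact hcard
    have hall : ∀ U : Set X, IsOpen U := fun U => (hU U).2 fun i => (hempty.false i).elim
    apply covDimLE_of_part (n := 0)
    intro A B hA hB hAB
    refine ⟨A, fun j => (A j)ᶜ, fun j => ⟨hall _, hall _, Set.Subset.refl _,
      Set.subset_compl_iff_disjoint_left.2 (hAB j), disjoint_compl_right⟩, ?_⟩
    intro x _
    refine Set.mem_iUnion.2 ⟨0, ?_⟩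
    rw [Set.union_compl_self]
    exact Set.mem_univ x
  · have hne : Nonempty I := by
      rw [← Finset.univ_nonempty_iff, ← Finset.card_pos, hcard]
      exact hk
    have hvia : Via μ Set.univ Set.univ (Finset.univ : Finset I) := by
      intro x _
      refine ⟨by rw [closure_univ]; exact Set.mem_univ x, fun U hUx => ?_⟩
      rw [Set.compl_univ, Set.union_empty]
      apply nhds_of_inter μ hU
      intro i
      exact mem_of_superset (hUx i (Finset.mem_univ i))
        (Set.subset_biUnion_of_mem (u := U) (Finset.mem_coe.2 (Finset.mem_univ i)))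
    have hpart := part_of_via μ (fun i => (hμ i).1) (fun i => (hμ i).2.2.2) k Finset.univ hcard
      _ _ hvia
    apply covDimLE_of_part
    have h2 : 2 ^ k - 2 + 1 = 2 ^ k - 1 := by
      have : 2 ^ 1 ≤ 2 ^ k := Nat.pow_le_pow_right (by norm_num) hk
      omega
    rw [h2]
    exact hpart

/-- If a metrizable topology `τ` is the intersection of `k` metrizable extensions of dimension
`0`, then `dim (X, τ) ≤ 2 ^ k - 2`. In particular the structural number of a metrizable space
of infinite covering dimension is not finite. -/
theorem result (X : Type u) [τ : TopologicalSpace X] [MetrizableSpace X] :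
    (∀ k : ℕ, HasFamily τ (k : Cardinal.{0}) → CovDimLE X (2 ^ k - 2)) ∧
      ((∀ n : ℕ, ¬ CovDimLE X n) → ∀ k : ℕ, ¬ HasFamily τ (k : Cardinal.{0})) :=
  ⟨bound X, fun h k hk => h _ (bound X k hk)⟩

end Pool.Agent.Results.MP_e04a0d_gt.NotFinite
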